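import Pool.Agent.JC.T9b
import Pool.Agent.JX.Base

/-!
# [JXC] the local condition at `λ` for the new part of the class
-/

set_option autoImplicit false

namespace JXC

open CM27 CU JZ JC JX

/-- the three residues modulo `λ` -/
def T3 : Finset (QA 9) := {0, 1, -1}

/-- the signs -/
def D2 : Finset (QA 9) := {1, -1}

/-- representatives modulo `λ²` -/
def E2 : Finset (QA 9) := Finset.univ.filter fun x => x.re.val < 3 ∧ x.im.val < 3

/-- unit representatives modulo `λ²` -/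
def UE2 : Finset (QA 9) := E2.filter fun x => el ^ 3 * x ≠ 0

theorem T3_card : T3.card = 3 := by decide

theorem D2_card : D2.card = 2 := by decide

theorem E2_card : E2.card = 9 := by decide +kernel

theorem UE2_card : UE2.card = 6 := by decide +kernel

theorem E2_ex (x : QA 9) : ∃ y ∈ E2, el ^ 2 * x = el ^ 2 * y := by
  revert x
  decide +kernel

theorem mem_UE2 (x : QA 9) : x ∈ UE2 ↔ x ∈ E2 ∧ el ^ 3 * x ≠ 0 := by
  rw [UE2, Finset.mem_filter]

/-- elements killed by `λ²` -/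
theorem ker2 (x : QA 9) : el ^ 2 * x = 0 → 3 * x = 0 ∧ x ^ 2 = 0 := by
  revert x
  decide +kernel

/-- elements killed by `λ` -/
theorem ker1 (x : QA 9) : el * x = 0 → ∃ j ∈ T3, x = j * el ^ 3 := by
  revert x
  decide +kernel

theorem three_el : (3 : QA 9) * el ^ 2 = 0 := by decide

attribute [irreducible] E2 UE2

theorem cube_eq {x y : QA 9} (h : el ^ 2 * x = el ^ 2 * y) : x ^ 3 = y ^ 3 := by
  obtain ⟨h1, h2⟩ := ker2 (x - y) (by rw [mul_sub, h, sub_self])
  linear_combination (y ^ 2 + y * (x - y)) * h1 + (x - y) * h2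

theorem three_eq {x y : QA 9} (h : el ^ 2 * x = el ^ 2 * y) : 3 * x = 3 * y := by
  obtain ⟨h1, -⟩ := ker2 (x - y) (by rw [mul_sub, h, sub_self])
  linear_combination h1

/-- the parameters: the digits of `D`, the class of `δ` (`t`, `k`), `b`, `c`, and the last digit -/
def PX : Finset ((QA 9 × QA 9 × QA 9 × QA 9 × QA 9) × QA 9 × QA 9 × QA 9) :=
  (D2 ×ˢ (D2 ×ˢ (T3 ×ˢ (T3 ×ˢ T3)))) ×ˢ (E2 ×ˢ (UE2 ×ˢ T3))

theorem PX_card : PX.card = 17496 := by
  unfold PX
  simp only [Finset.card_product, T3_card, D2_card, E2_card, UE2_card]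

/-- `δ` -/
def dl (v : (QA 9 × QA 9 × QA 9 × QA 9 × QA 9) × QA 9 × QA 9 × QA 9) : QA 9 :=
  v.1.2.2.2.1 * (1 + v.1.2.1 * (1 + v.1.2.2.1) * el) + v.1.2.2.2.2 * el ^ 2

/-- `D` -/
def db (v : (QA 9 × QA 9 × QA 9 × QA 9 × QA 9) × QA 9 × QA 9 × QA 9) : QA 9 :=
  v.1.1 + v.1.2.1 * el + v.1.2.2.1 * el ^ 2

/-- the form -/
def fm (v : (QA 9 × QA 9 × QA 9 × QA 9 × QA 9) × QA 9 × QA 9 × QA 9) : QA 9 × QA 9 × QA 9 × QA 9 :=
  (7 * v.2.2.1 ^ 3 * (4 * db v - el ^ 2 * dl v ^ 2 - 4 * el * dl v * v.2.1 ^ 3 +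
    3 * v.2.1 ^ 2 * v.2.2.1 ^ 2) + v.2.2.2 * el ^ 3, 3 * v.2.1, 3 * v.2.2.1, el * dl v)

/-- the residues of the forms with the root in `(0, 1)` -/
def SX : Finset (QA 9 × QA 9 × QA 9 × QA 9) := PX.image fm

theorem SX_card : SX.card ≤ 17496 := Finset.card_image_le.trans PX_card.le

theorem mem_SX {v : (QA 9 × QA 9 × QA 9 × QA 9 × QA 9) × QA 9 × QA 9 × QA 9} (h : v ∈ PX) :
    fm v ∈ SX := Finset.mem_image_of_mem _ h

theorem mem_PX (d₀ d₁ d₂ t k b c j : QA 9) : ((d₀, d₁, d₂, t, k), b, c, j) ∈ PX ↔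
    (d₀ ∈ D2 ∧ d₁ ∈ D2 ∧ d₂ ∈ T3 ∧ t ∈ T3 ∧ k ∈ T3) ∧ b ∈ E2 ∧ c ∈ UE2 ∧ j ∈ T3 := by
  simp only [PX, Finset.mem_product]

attribute [irreducible] PX SX

/-- the form `a² d² - 6 a b c d + 4 a c³ + 4 b³ d - 3 b² c²` -/
def EE {R : Type*} [CommRing R] (a b c d : R) : R :=
  a ^ 2 * d ^ 2 - 6 * a * b * c * d + 4 * a * c ^ 3 + 4 * b ^ 3 * d - 3 * b ^ 2 * c ^ 2

theorem disc_three {R : Type*} [CommRing R] (a b c d : R) :
    disc a (3 * b) (3 * c) d = -27 * EE a b c d := by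
  simp only [disc, EE]
  ring

/-- the condition at `λ` of the new part -/
def CondY (D : Eis) : Prop :=
  ¬ la ∣ D ∧ ∀ η : Eis, (η = 1 ∨ η = -1) → ¬ (3 : Eis) ∣ D - η

theorem rd_int (n : ℤ) : rd 9 (n : Eis) = (n : QA 9) := map_intCast _ _

theorem mem_T3_of {n : ℤ} (h : n = 0 ∨ n = 1 ∨ n = -1) : (n : QA 9) ∈ T3 := by
  rcases h with rfl | rfl | rfl
  · simp [T3]
  · simp [T3]
  · simp [T3]

theorem mem_D2_of {n : ℤ} (h : n = 1 ∨ n = -1) : (n : QA 9) ∈ D2 := by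
  rcases h with rfl | rfl
  · simp [D2]
  · simp [D2]

/-- an integer modulo `3` -/
theorem int_three (t : ℤ) : ∃ n : ℤ, (n = 0 ∨ n = 1 ∨ n = -1) ∧ (3 : ℤ) ∣ t - n := by
  have h : t % 3 = 0 ∨ t % 3 = 1 ∨ t % 3 = 2 := by omega
  rcases h with h | h | h
  · exact ⟨0, Or.inl rfl, by omega⟩
  · exact ⟨1, Or.inr (Or.inl rfl), by omega⟩
  · exact ⟨-1, Or.inr (Or.inr rfl), by omega⟩

theorem mem_shapeX {a b c δ D : Eis} (hD : CondY D) (h : EE a b c (la * δ) = 4 * D)
    (hL : Ln D δ) : rd4 9 (a, 3 * b, 3 * c, la * δ) ∈ SX := by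
  have hdom := eis_isDomain
  obtain ⟨d₀, d₁, d₂, t, ⟨hd0, hd1, hd2, hdig⟩, hline⟩ := hL
  have hd1' : d₁ = 1 ∨ d₁ = -1 := by
    rcases hd1 with h1 | h1
    · exfalso
      subst h1
      obtain ⟨m, hm⟩ := hdig
      have h3 : (3 : Eis) ∣ D - (d₀ : Eis) := by
        have e3 : (3 : Eis) = -om ^ 2 * la ^ 2 := by decide
        have h4 : (la : Eis) ^ 2 = 3 * (-om) := by decide
        refine ⟨-om * (d₂ + la * m), ?_⟩
        have : D = d₀ + d₂ * la ^ 2 + la ^ 3 * m := by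
          push_cast at hm
          linear_combination hm
        rw [this]
        linear_combination (d₂ + la * m) * h4
      rcases hd0 with h0 | h0
      · exact hD.2 1 (Or.inl rfl) (by rw [h0] at h3; exact_mod_cast h3)
      · exact hD.2 (-1) (Or.inr rfl) (by rw [h0] at h3; exact_mod_cast h3)
    · exact h1
  obtain ⟨n, hn, ⟨u, hu⟩⟩ := int_three t
  -- residues
  set A := rd 9 a with hA
  set B := rd 9 b with hB
  set C := rd 9 c with hC
  set Δ := rd 9 δ with hΔ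
  set X := rd 9 D with hX
  have e1 : A ^ 2 * (el * Δ) ^ 2 - 6 * A * B * C * (el * Δ) + 4 * A * C ^ 3 +
      4 * B ^ 3 * (el * Δ) - 3 * B ^ 2 * C ^ 2 = 4 * X := by
    have := congrArg (rd 9) h
    simpa only [EE, map_add, map_sub, map_mul, map_pow, map_ofNat, rd_la, ← hA, ← hB, ← hC, ← hΔ,
      ← hX] using this
  have h3e := three_el
  have hX0 : el ^ 3 * X ≠ 0 := fun h0 => hD.1 ((el3_iff D).1 h0)
  have e3 : el ^ 3 * X = el ^ 3 * (A * C ^ 3) := by
    linear_combination -7 * el ^ 3 * e1 + 7 * (A ^ 2 * el * Δ ^ 2 + 4 * B ^ 3 * Δ) * el_four -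
      7 * (2 * A * B * C * el ^ 2 * Δ + B ^ 2 * C ^ 2 * el) * h3e + (3 * el ^ 3 * (A * C ^ 3) -
      3 * el ^ 3 * X) * nine_zero
  have hA0 : el ^ 3 * A ≠ 0 := by
    intro h0
    apply hX0
    rw [e3]
    linear_combination C ^ 3 * h0
  have hC0 : el ^ 3 * C ≠ 0 := by
    intro h0
    apply hX0
    rw [e3]
    linear_combination A * C ^ 2 * h0
  -- `D`
  have eX : el * X = el * ((d₀ : QA 9) + (d₁ : QA 9) * el + (d₂ : QA 9) * el ^ 2) := by
    obtain ⟨m, hm⟩ := hdig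
    have := congrArg (rd 9) hm
    simp only [map_sub, map_add, map_mul, map_pow, rd_la, rd_int, ← hX] at this
    linear_combination el * this + rd 9 m * el_four
  -- `δ`
  obtain ⟨k, hk, eΔ⟩ : ∃ k ∈ T3, el * Δ = el * ((n : QA 9) * (1 + (d₁ : QA 9) * (1 + (d₂ : QA 9)) * el) +
      k * el ^ 2) := by
    obtain ⟨m, hm⟩ := hline
    have h1 := congrArg (rd 9) hm
    simp only [map_sub, map_add, map_mul, map_pow, map_one, rd_la, rd_int, ← hΔ] at h1
    have h2 : el ^ 2 * (Δ - (n : QA 9) * (1 + (d₁ : QA 9) * (1 + (d₂ : QA 9)) * el)) = 0 := by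
      have h4 : (t : QA 9) = (n : QA 9) + 3 * (u : QA 9) := by
        have : t = n + 3 * u := by linarith
        rw [this]
        push_cast
        ring
      rw [h4] at h1
      push_cast at h1
      linear_combination el ^ 2 * h1 + rd 9 m * el_four +
        (u : QA 9) * (1 + (d₁ : QA 9) * (1 + (d₂ : QA 9)) * el) * h3e
    have h5 : ∀ x : QA 9, el ^ 2 * x = 0 → ∃ k ∈ T3, el * x = el * (k * el ^ 2) := by
      decide +kernel
    obtain ⟨k, hk, h6⟩ := h5 _ h2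
    exact ⟨k, hk, by linear_combination h6⟩
  obtain ⟨B', hB'2, hB'⟩ := E2_ex B
  obtain ⟨C', hC'2, hC'⟩ := E2_ex C
  have hC'0 : C' ∈ UE2 := (mem_UE2 C').2 ⟨hC'2, fun h0 => hC0 (by
    linear_combination el * hC' + h0)⟩
  have hcubB := cube_eq hB'
  have hcubC := cube_eq hC'
  have h3B := three_eq hB'
  have h3C := three_eq hC'
  have hCC : C * C ^ 5 = 1 := unit_inv C hC0
  have hAA := el_sq A hA0
  set δ' : QA 9 := (n : QA 9) * (1 + (d₁ : QA 9) * (1 + (d₂ : QA 9)) * el) + k * el ^ 2 with hδ'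
  set X' : QA 9 := (d₀ : QA 9) + (d₁ : QA 9) * el + (d₂ : QA 9) * el ^ 2 with hX'
  have e5 : el * (A - 7 * C' ^ 3 * (4 * X' - el ^ 2 * δ' ^ 2 - 4 * el * δ' * B' ^ 3 +
      3 * B' ^ 2 * C' ^ 2)) = 0 := by
    rw [← hcubB, ← hcubC]
    have e6 : el * (4 * A * C ^ 3) = el * (4 * X' - el ^ 2 * δ' ^ 2 - 4 * el * δ' * B ^ 3 +
        3 * B' ^ 2 * C' ^ 2) := by
      linear_combination el * e1 + 4 * eX - Δ ^ 2 * hAA - el * (el * Δ + el * δ') * eΔ -
        4 * el * B ^ 3 * eΔ + el * (B * C ^ 2) * h3B + el * B' * C ^ 2 * h3B +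
        el * B' ^ 2 * C * h3C + el * B' ^ 2 * C' * h3C + 2 * A * B * C * Δ * h3e
    have e7 : el * A = 7 * C ^ 3 * (el * (4 * A * C ^ 3)) := by
      linear_combination -(28 * el * A) * hCC - 3 * el * A * nine_zero
    rw [mul_sub, e7, e6]
    ring
  obtain ⟨j, hj, e8⟩ := ker1 _ e5
  have hmem : (((d₀ : QA 9), (d₁ : QA 9), (d₂ : QA 9), (n : QA 9), k), B', C', j) ∈ PX := by
    rw [mem_PX]
    exact ⟨⟨mem_D2_of hd0, mem_D2_of hd1', mem_T3_of hd2, mem_T3_of hn, hk⟩, hB'2, hC'0, hj⟩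
  have h9 := mem_SX hmem
  have e9 : rd4 9 (a, 3 * b, 3 * c, la * δ) =
      fm (((d₀ : QA 9), (d₁ : QA 9), (d₂ : QA 9), (n : QA 9), k), B', C', j) := by
    simp only [rd4, fm, dl, db, map_mul, map_ofNat, rd_la, ← hA, ← hB, ← hC, ← hΔ, h3B, h3C, eΔ,
      Prod.mk.injEq]
    refine ⟨?_, trivial, trivial, rfl⟩
    linear_combination e8
  rw [e9]
  exact h9

/-! ### all the residues -/

/-- the residues of the forms -/
def CX : Finset (Z4 9) :=
  (SX.image rv ∪ (P9.biUnion fun t => SX.image (sh (-rd 9 t)))).image (toZ 9)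

theorem CX_card : CX.card ≤ 69984 := by
  have h1 : (SX.image rv).card ≤ 17496 := Finset.card_image_le.trans SX_card
  have h2 : (P9.biUnion fun t => SX.image (sh (-rd 9 t))).card ≤ 3 * 17496 := by
    refine Finset.card_biUnion_le.trans ?_
    calc ∑ t ∈ P9, (SX.image (sh (-rd 9 t))).card ≤ ∑ _t ∈ P9, 17496 :=
          Finset.sum_le_sum fun t _ => Finset.card_image_le.trans SX_card
      _ = 3 * 17496 := by
        rw [Finset.sum_const, smul_eq_mul, P9_card]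
  have h5 := Finset.card_union_le (SX.image rv) (P9.biUnion fun t => SX.image (sh (-rd 9 t)))
  have h6 : CX.card ≤ (SX.image rv ∪ (P9.biUnion fun t => SX.image (sh (-rd 9 t)))).card :=
    Finset.card_image_le
  omega

/-- the local condition at `λ` of the form -/
def LC (a b c d D : Eis) : Prop :=
  ∀ x y m : Eis, ¬ (la ∣ x ∧ la ∣ y) → val a (3 * b) (3 * c) d x y = la * m → Ln D m

/-- the shape is preserved -/
theorem act_three (a b c d p q r s : Eis) : ∃ b' c' : Eis,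
    cB a (3 * b) (3 * c) d p q r s = 3 * b' ∧ cC a (3 * b) (3 * c) d p q r s = 3 * c' := by
  refine ⟨a * p ^ 2 * q + b * (p ^ 2 * s + 2 * p * q * r) + c * (2 * p * r * s + q * r ^ 2) +
      d * r ^ 2 * s, a * p * q ^ 2 + b * (2 * p * q * s + q ^ 2 * r) +
      c * (p * s ^ 2 + 2 * q * r * s) + d * r * s ^ 2, ?_, ?_⟩
  · simp only [cB]
    ring
  · simp only [cC]
    ring

theorem not_both {p q r s : Eis} (hu : IsUnit (p * s - q * r)) : ¬ (la ∣ q ∧ la ∣ s) := by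
  rintro ⟨⟨u, rfl⟩, ⟨v, rfl⟩⟩
  have : (la : Eis) ∣ p * (la * v) - la * u * r := ⟨p * v - u * r, by ring⟩
  exact la_prime.not_isUnit (isUnit_of_dvd_unit this hu)

/-- The condition in one position: the root of the transformed form is `(0, 1)`. -/
theorem pos_key {a b c d D : Eis} (hD : CondY D) (h : EE a b c d = 4 * D) (hL : LC a b c d D)
    {p q r s : Eis} (hu : IsUnit (p * s - q * r))
    (h0 : la ∣ cD a (3 * b) (3 * c) d p q r s) :
    rd4 9 (cA a (3 * b) (3 * c) d p q r s, cB a (3 * b) (3 * c) d p q r s,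
      cC a (3 * b) (3 * c) d p q r s, cD a (3 * b) (3 * c) d p q r s) ∈ SX := by
  have hdom := eis_isDomain
  obtain ⟨b', c', e1, e2⟩ := act_three a b c d p q r s
  obtain ⟨δ, hδ⟩ := h0
  have h1 := disc_act a (3 * b) (3 * c) d p q r s
  rw [unit_six hu, one_mul, e1, e2, hδ, disc_three, disc_three, h] at h1
  have h2 : EE (cA a (3 * b) (3 * c) d p q r s) b' c' (la * δ) = 4 * D :=
    mul_left_cancel₀ (show (-27 : Eis) ≠ 0 by decide) h1
  rw [e1, e2, hδ]
  refine mem_shapeX hD h2 ?_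
  exact hL q s δ (not_both hu) hδ

theorem exists_root3 (x y : Eis) (hx : ¬ la ∣ x) : ∃ t ∈ P9, la ∣ x * t ^ 3 + y := by
  have h : ∀ u v : QA 9, el ^ 3 * u ≠ 0 → ∃ t ∈ P9, el ^ 3 * (u * rd 9 t ^ 3 + v) = 0 := by
    decide +kernel
  obtain ⟨t, ht, h1⟩ := h (rd 9 x) (rd 9 y) (fun h0 => hx ((el3_iff x).1 h0))
  refine ⟨t, ht, (el3_iff _).1 ?_⟩
  rw [map_add, map_mul, map_pow]
  exact h1

/-- The residues of all forms equivalent to a form of `D`. -/
theorem c9x : ∃ C : Finset (Z4 9), C.card ≤ 69984 ∧ ∀ a b c d D p q r s : Eis, CondY D →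
    EE a b c d = 4 * D → LC a b c d D → IsUnit (p * s - q * r) →
    res4 9 (cA a (3 * b) (3 * c) d p q r s, cB a (3 * b) (3 * c) d p q r s,
      cC a (3 * b) (3 * c) d p q r s, cD a (3 * b) (3 * c) d p q r s) ∈ C := by
  refine ⟨CX, CX_card, fun a b c d D p q r s hD h hL hu => ?_⟩
  have hdom := eis_isDomain
  rw [res4_eq]
  refine Finset.mem_image_of_mem _ ?_
  by_cases hA : la ∣ cA a (3 * b) (3 * c) d p q r s
  · -- the root is `(1, 0)`
    apply Finset.mem_union_left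
    have h1 := pos_key hD h hL (p := q) (q := p) (r := s) (s := r) (by
      have : q * r - p * s = -(p * s - q * r) := by ring
      rw [this]
      exact hu.neg) hA
    refine Finset.mem_image.2 ⟨_, h1, ?_⟩
    simp only [rv, rd4, cA, cB, cC, cD, val, Prod.mk.injEq]
    refine ⟨trivial, ?_, ?_, trivial⟩ <;>
    · congr 1
      ring
  · apply Finset.mem_union_right
    obtain ⟨t, ht, h2⟩ := exists_root3 _ (cD a (3 * b) (3 * c) d p q r s) hA
    have hu' : IsUnit (p * (r * t + s) - (p * t + q) * r) := by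
      have : p * (r * t + s) - (p * t + q) * r = p * s - q * r := by ring
      rw [this]
      exact hu
    have h3 : la ∣ cD a (3 * b) (3 * c) d p (p * t + q) r (r * t + s) := by
      have h4 : cD a (3 * b) (3 * c) d p (p * t + q) r (r * t + s) =
          (cA a (3 * b) (3 * c) d p q r s * t ^ 3 + cD a (3 * b) (3 * c) d p q r s) +
          (cB a (3 * b) (3 * c) d p q r s * t ^ 2 + cC a (3 * b) (3 * c) d p q r s * t) := by
        simp only [cA, cB, cC, cD, val]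
        ring
      obtain ⟨b', c', e1, e2⟩ := act_three a b c d p q r s
      rw [h4, e1, e2]
      refine dvd_add h2 ?_
      have e3 : (3 : Eis) = la * (-om ^ 2 * la) := by decide
      rw [e3]
      exact ⟨-om ^ 2 * la * b' * t ^ 2 + -om ^ 2 * la * c' * t, by ring⟩
    have h1 := pos_key hD h hL hu' h3
    refine Finset.mem_biUnion.2 ⟨t, ht, Finset.mem_image.2
      ⟨sh (rd 9 t) (rd4 9 (cA a (3 * b) (3 * c) d p q r s, cB a (3 * b) (3 * c) d p q r s,
        cC a (3 * b) (3 * c) d p q r s, cD a (3 * b) (3 * c) d p q r s)), ?_, sh_sh _ _⟩⟩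
    rw [sh_rd4]
    have e : sh t (cA a (3 * b) (3 * c) d p q r s, cB a (3 * b) (3 * c) d p q r s,
        cC a (3 * b) (3 * c) d p q r s, cD a (3 * b) (3 * c) d p q r s) =
        (cA a (3 * b) (3 * c) d p (p * t + q) r (r * t + s),
        cB a (3 * b) (3 * c) d p (p * t + q) r (r * t + s),
        cC a (3 * b) (3 * c) d p (p * t + q) r (r * t + s),
        cD a (3 * b) (3 * c) d p (p * t + q) r (r * t + s)) := by
      simp only [sh, cA, cB, cC, cD, val, Prod.mk.injEq]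
      refine ⟨trivial, ?_, ?_, ?_⟩ <;> ring
    rw [e]
    exact h1

end JXC
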