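import Pool.Agent.JC.C6
import Pool.Agent.JXC.L

/-!
# [JXC] the number of `D` in the new part of the class
-/

set_option autoImplicit false

namespace JXC

open CM27 CU JZ JC JX
open scoped Classical

theorem la_dvd_iff (x : Eis) : la ∣ x ↔ (3 : ℤ) ∣ x.re + x.im := by
  have e0 : (la : Eis) = ⟨1, -1⟩ := by decide
  rw [e0]
  constructor
  · rintro ⟨k, rfl⟩
    rw [QuadraticAlgebra.re_mul, QuadraticAlgebra.im_mul]
    dsimp only
    omega
  · rintro ⟨k, hk⟩
    refine ⟨⟨x.re - k, k⟩, ?_⟩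
    apply QuadraticAlgebra.ext
    · rw [QuadraticAlgebra.re_mul]
      dsimp only
      linarith
    · rw [QuadraticAlgebra.im_mul]
      dsimp only
      linarith

theorem condY_iff (D : Eis) : CondY D ↔ ¬ (3 : ℤ) ∣ D.re + D.im ∧ ¬ (3 : ℤ) ∣ D.im := by
  have e1 : (1 : Eis).re = 1 := rfl
  have e2 : (1 : Eis).im = 0 := rfl
  have e3 : (-1 : Eis).re = -1 := rfl
  have e4 : (-1 : Eis).im = 0 := rfl
  unfold CondY
  rw [la_dvd_iff]
  constructor
  · rintro ⟨h1, h2⟩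
    refine ⟨h1, fun h3 => ?_⟩
    have h4 := h2 1 (Or.inl rfl)
    have h5 := h2 (-1) (Or.inr rfl)
    rw [three_dvd_iff, QuadraticAlgebra.re_sub, QuadraticAlgebra.im_sub] at h4 h5
    rw [e1, e2] at h4
    rw [e3, e4] at h5
    omega
  · rintro ⟨h1, h2⟩
    refine ⟨h1, ?_⟩
    rintro η (rfl | rfl) h3
    · rw [three_dvd_iff, QuadraticAlgebra.re_sub, QuadraticAlgebra.im_sub, e1, e2] at h3
      omega
    · rw [three_dvd_iff, QuadraticAlgebra.re_sub, QuadraticAlgebra.im_sub, e3, e4] at h3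
      omega

/-- the class in terms of the residues -/
def okY (u v : ℕ) : Bool :=
  ((u + v) % 3 != 0) && (v % 3 != 0) &&
    !((u % 4 == 0 && v % 4 == 0) || (u % 4 == 1 && v % 4 == 0) || (u % 4 == 0 && v % 4 == 1) ||
      (u % 4 == 3 && v % 4 == 3))

/-- the set of the residues -/
def FY : Finset (ZMod 36 × ZMod 36) := Finset.univ.filter fun c => okY c.1.val c.2.val = true

theorem FY_card : FY.card = 432 := by decide +kernel

theorem mem_FY (D : Eis) : (CondY D ∧ CondTwo D) ↔ res 36 D ∈ FY := by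
  rw [condY_iff, condTwo_iff, FY, Finset.mem_filter]
  have h1 : (((res 36 D).1.val : ℕ) : ℤ) = D.re % 36 := by
    show (((D.re : ZMod 36).val : ℕ) : ℤ) = _
    rw [ZMod.val_intCast]
    rfl
  have h2 : (((res 36 D).2.val : ℕ) : ℤ) = D.im % 36 := by
    show (((D.im : ZMod 36).val : ℕ) : ℤ) = _
    rw [ZMod.val_intCast]
    rfl
  set u := (res 36 D).1.val
  set v := (res 36 D).2.val
  simp only [okY, Bool.and_eq_true, bne_iff_ne, ne_eq,
    Bool.not_eq_true', Bool.or_eq_false_iff, Bool.and_eq_false_iff, beq_eq_false_iff_ne,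
    Finset.mem_univ, true_and]
  omega

attribute [irreducible] FY

theorem class_primeY (D p : Eis) (h1 : CondY D) (h2 : CondTwo D) (hp : Prime p)
    (hd : p ^ 2 ∣ D) : IsCoprime p 6 := by
  have hdom := eis_isDomain
  have hpid := eis_pid
  rw [Prime.coprime_iff_not_dvd hp]
  intro h6
  have h6' : (6 : Eis) = 2 * (-om ^ 2 * la ^ 2) := by decide
  rw [h6'] at h6
  rcases hp.dvd_or_dvd h6 with h | h
  · have h3 : (2 : Eis) ∣ p := (hp.associated_of_dvd two_prime h).symm.dvd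
    refine h2 0 ?_
    have : (2 : Eis) ^ 2 ∣ D := (pow_dvd_pow_of_dvd h3 2).trans hd
    rw [show (0 : Eis) ^ 2 = 0 by ring, sub_zero]
    have e : (2 : Eis) ^ 2 = 4 := by norm_num
    rwa [e] at this
  · have h3 : p ∣ la := by
      rcases hp.dvd_or_dvd h with h | h
      · exfalso
        apply hp.not_isUnit
        refine isUnit_of_dvd_unit h ?_
        rw [eis_isUnit_iff]
        decide
      · exact hp.dvd_of_dvd_pow h
    have h4 : (la : Eis) ∣ p := (hp.associated_of_dvd la_prime' h3).symm.dvd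
    exact h1.1 ((h4.trans (dvd_pow_self p two_ne_zero)).trans hd)

/-- the elements of the residue classes, divisible by `m` -/
noncomputable def AMY (m : Eis) (X : ℕ) : Finset Eis :=
  (norm_fin X).toFinset.filter fun x => res 36 x ∈ FY ∧ m ∣ x

theorem mem_AMY (m : Eis) (X : ℕ) (x : Eis) : x ∈ AMY m X ↔ x.norm ≤ X ∧ res 36 x ∈ FY ∧ m ∣ x := by
  rw [AMY, Finset.mem_filter, Set.Finite.mem_toFinset]
  exact Iff.rfl

theorem AMY_card (m : Eis) (hm : IsCoprime m 36) : ∃ C : ℝ, 0 ≤ C ∧ ∀ X : ℕ,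
    |((AMY m X).card : ℝ) - 2 * Real.pi / √3 * X / (3 * m.norm)| ≤ C * (√X + 1) := by
  choose C hC using fun c : ZMod 36 × ZMod 36 => count_res c m hm
  refine ⟨∑ c ∈ FY, |C c|, Finset.sum_nonneg fun _ _ => abs_nonneg _, fun X => ?_⟩
  have h1 : (AMY m X).card = ∑ c ∈ FY, ((AMY m X).filter fun x => res 36 x = c).card :=
    Finset.card_eq_sum_card_fiberwise fun x hx => ((mem_AMY m X x).1 hx).2.1
  have h2 : ∀ c ∈ FY, (((AMY m X).filter fun x => res 36 x = c).card : ℝ) =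
      ({x : Eis | res 36 x = c ∧ m ∣ x ∧ x.norm ≤ X}.ncard : ℝ) := fun c hc => by
    rw [← Set.ncard_coe_finset]
    congr 2
    ext x
    rw [Finset.mem_coe, Finset.mem_filter, mem_AMY]
    show _ ↔ res 36 x = c ∧ m ∣ x ∧ x.norm ≤ X
    constructor
    · rintro ⟨⟨h3, h4, h5⟩, h6⟩
      exact ⟨h6, h5, h3⟩
    · rintro ⟨h3, h4, h5⟩
      exact ⟨⟨h5, by rw [h3]; exact hc, h4⟩, h3⟩
  have h3 : ((AMY m X).card : ℝ) - 2 * Real.pi / √3 * X / (3 * m.norm) =
      ∑ c ∈ FY, (({x : Eis | res 36 x = c ∧ m ∣ x ∧ x.norm ≤ X}.ncard : ℝ) -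
        2 * Real.pi / √3 * X / (1296 * m.norm)) := by
    rw [Finset.sum_sub_distrib, Finset.sum_const, FY_card, h1]
    push_cast
    rw [Finset.sum_congr rfl h2, nsmul_eq_mul]
    congr 1
    have e : ∀ a N : ℝ, a / (3 * N) = 432 * (a / (1296 * N)) := by
      intro a N
      rcases eq_or_ne N 0 with h | h
      · simp [h]
      · field_simp
        ring
    rw [e]
    push_cast
    rfl
  rw [h3]
  refine (Finset.abs_sum_le_sum_abs _ _).trans ?_
  rw [Finset.sum_mul]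
  refine Finset.sum_le_sum fun c _ => ((hC c X).2).trans ?_
  gcongr
  exact le_abs_self _

/-- the elements of the class with a square of a prime of norm `≤ K` -/
noncomputable def BY1 (K X : ℕ) : Finset Eis := (AMY 1 X).filter fun x => ∃ p ∈ PB K, p ^ 2 ∣ x

/-- the elements of the class with a square of a prime of norm `> K` -/
noncomputable def BY2 (K X : ℕ) : Finset Eis :=
  (AMY 1 X).filter fun x => x ≠ 0 ∧ ∃ p, Prime p ∧ IsCoprime p 6 ∧ (K : ℤ) < p.norm ∧ p ^ 2 ∣ x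

theorem BY1_card (K X : ℕ) : 6 * (BY1 K X).card ≤ ∑ p ∈ PB K, (AMY (p ^ 2) X).card := by
  have hdom := eis_isDomain
  have hex : ∀ x : Eis, ∃ p : Eis, x ∈ BY1 K X → p ∈ PB K ∧ p ^ 2 ∣ x := fun x => by
    by_cases hx : x ∈ BY1 K X
    · obtain ⟨p, h1, h2⟩ := (Finset.mem_filter.1 hx).2
      exact ⟨p, fun _ => ⟨h1, h2⟩⟩
    · exact ⟨0, fun h => absurd h hx⟩
  choose q hq using hex
  have h1 : (U6 ×ˢ BY1 K X).card ≤ ((PB K).sigma fun p => AMY (p ^ 2) X).card := by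
    refine Finset.card_le_card_of_injOn (fun y => ⟨y.1 * q y.2, y.2⟩) ?_ ?_
    · rintro ⟨u, x⟩ hy
      obtain ⟨hu, hx⟩ := Finset.mem_product.1 (Finset.mem_coe.1 hy)
      obtain ⟨h2, h3⟩ := hq x hx
      obtain ⟨h4, h5, h6⟩ := (mem_PB K _).1 h2
      have hun : IsUnit u := by
        rw [eis_isUnit_iff]
        exact U6_unit u hu
      refine Finset.mem_coe.2 (Finset.mem_sigma.2 ⟨(mem_PB K _).2 ⟨?_, ?_, ?_⟩, ?_⟩)
      · show (u * q x).norm ≤ K
        rw [map_mul, U6_unit u hu, one_mul]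
        exact h4
      · exact (associated_unit_mul_left _ _ hun).symm.prime h5
      · exact (isCoprime_mul_unit_left_left hun _ _).2 h6
      · obtain ⟨h7, h8, -⟩ := (mem_AMY 1 X x).1 (Finset.mem_filter.1 hx).1
        refine (mem_AMY _ X x).2 ⟨h7, h8, ?_⟩
        show (u * q x) ^ 2 ∣ x
        rw [mul_pow]
        exact (IsUnit.mul_left_dvd (hun.pow 2)).2 h3
    · rintro ⟨u, x⟩ hy ⟨u', x'⟩ hy' h
      obtain ⟨hu, hx⟩ := Finset.mem_product.1 (Finset.mem_coe.1 hy)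
      simp only [Sigma.mk.injEq, heq_eq_eq] at h
      obtain ⟨h2, rfl⟩ := h
      have h3 : q x ≠ 0 := ((mem_PB K _).1 (hq x hx).1).2.1.ne_zero
      rw [mul_right_cancel₀ h3 h2]
  rw [Finset.card_product, U6_card, Finset.card_sigma] at h1
  exact h1

theorem BY2_card : ∃ C : ℝ, 0 < C ∧ ∀ k X : ℕ, 1 ≤ k →
    ((BY2 (3 * k ^ 2) X).card : ℝ) ≤ C * X / k ^ 2 := by
  have hdom := eis_isDomain
  obtain ⟨C, hC, hmul⟩ := count_mul
  refine ⟨C * 64, by positivity, fun k X hk => ?_⟩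
  set Q : Finset Eis := (PB X).filter fun p => ((3 * k ^ 2 : ℕ) : ℤ) < p.norm with hQ
  have hsub : BY2 (3 * k ^ 2) X ⊆ Q.biUnion fun p => (norm_fin X).toFinset.filter
      fun x => x ≠ 0 ∧ p ^ 2 ∣ x := by
    intro x hx
    obtain ⟨h1, h0, p, hp, h6, hK, hd⟩ := Finset.mem_filter.1 hx
    have hX := ((mem_AMY 1 X x).1 h1).1
    refine Finset.mem_biUnion.2 ⟨p, Finset.mem_filter.2 ⟨(mem_PB X p).2 ⟨?_, hp, h6⟩, hK⟩,
      Finset.mem_filter.2 ⟨?_, h0, hd⟩⟩
    · obtain ⟨y, rfl⟩ := hd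
      have hy : y ≠ 0 := by
        rintro rfl
        exact h0 (mul_zero _)
      have h2 := norm_one_le hy
      have h3 := norm_one_le hp.ne_zero
      have h4 : ((p ^ 2 * y).norm : ℝ) ≤ X := by exact_mod_cast hX
      have h5 : ((p ^ 2 * y).norm : ℝ) = (p.norm : ℝ) ^ 2 * (y.norm : ℝ) := by
        rw [map_mul, map_pow]
        push_cast
        rfl
      have h7 : (p.norm : ℝ) ≤ X := by nlinarith
      exact_mod_cast h7
    · rw [Set.Finite.mem_toFinset]
      exact hX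
  have h1 := (Finset.card_le_card hsub).trans Finset.card_biUnion_le
  have h2 : ∀ p ∈ Q, (((norm_fin X).toFinset.filter fun x => x ≠ 0 ∧ p ^ 2 ∣ x).card : ℝ) ≤
      C * X * (1 / (p.norm : ℝ) ^ 2) := by
    intro p hp
    have hp' := ((mem_PB X p).1 (Finset.mem_filter.1 hp).1).2.1
    have h3 := hmul (p ^ 2) X (pow_ne_zero 2 hp'.ne_zero)
    have h4 : (((norm_fin X).toFinset.filter fun x => x ≠ 0 ∧ p ^ 2 ∣ x).card : ℝ) =
        ({x : Eis | x ≠ 0 ∧ p ^ 2 ∣ x ∧ x.norm ≤ X}.ncard : ℝ) := by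
      rw [← Set.ncard_coe_finset]
      congr 2
      ext x
      rw [Finset.mem_coe, Finset.mem_filter, Set.Finite.mem_toFinset]
      show x.norm ≤ X ∧ _ ↔ x ≠ 0 ∧ p ^ 2 ∣ x ∧ x.norm ≤ X
      tauto
    rw [h4]
    refine h3.trans (le_of_eq ?_)
    rw [map_pow]
    push_cast
    ring
  have h3 := sum_shell k hk Q fun p hp => by
    have h4 := (Finset.mem_filter.1 hp).2
    have h5 : p.norm ≤ 3 * (mx p : ℤ) ^ 2 := by
      rw [norm_eq]
      have a1 : p.re ^ 2 ≤ (mx p : ℤ) ^ 2 := by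
        rw [← Int.natAbs_sq p.re]
        have : p.re.natAbs ≤ mx p := le_max_left _ _
        exact_mod_cast Nat.pow_le_pow_left this 2
      have a2 : p.im ^ 2 ≤ (mx p : ℤ) ^ 2 := by
        rw [← Int.natAbs_sq p.im]
        have : p.im.natAbs ≤ mx p := le_max_right _ _
        exact_mod_cast Nat.pow_le_pow_left this 2
      nlinarith [sq_nonneg (p.re + p.im)]
    by_contra hcon
    rw [not_lt] at hcon
    have h6 : (mx p) ^ 2 ≤ k ^ 2 := Nat.pow_le_pow_left hcon 2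
    have h7 : ((mx p : ℤ)) ^ 2 ≤ (k : ℤ) ^ 2 := by exact_mod_cast h6
    push_cast at h4
    linarith
  have hk0 : (1 : ℝ) ≤ k := by exact_mod_cast hk
  calc ((BY2 (3 * k ^ 2) X).card : ℝ) ≤
      ((∑ p ∈ Q, ((norm_fin X).toFinset.filter fun x => x ≠ 0 ∧ p ^ 2 ∣ x).card : ℕ) : ℝ) := by
        exact_mod_cast h1
    _ = ∑ p ∈ Q, (((norm_fin X).toFinset.filter fun x => x ≠ 0 ∧ p ^ 2 ∣ x).card : ℝ) := by
        push_cast
        rfl
    _ ≤ ∑ p ∈ Q, C * X * (1 / (p.norm : ℝ) ^ 2) := Finset.sum_le_sum h2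
    _ = C * X * ∑ p ∈ Q, (1 / (p.norm : ℝ) ^ 2) := by rw [Finset.mul_sum]
    _ ≤ C * X * (64 / 9 / (k * (k + 1))) := by gcongr
    _ ≤ C * X * (64 / k ^ 2) := by
        gcongr
        · norm_num
        · nlinarith
    _ = C * 64 * X / k ^ 2 := by ring

theorem sieveY (K X : ℕ) : (AMY 1 X).card ≤
    {D : Eis | ClY D ∧ D.norm ≤ X}.ncard + (BY1 K X).card + (BY2 K X).card := by
  have hdom := eis_isDomain
  have hpid := eis_pid
  have hfin : {D : Eis | ClY D ∧ D.norm ≤ X}.Finite := (norm_fin X).subset fun x hx => hx.2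
  rw [Set.ncard_eq_toFinset_card _ hfin]
  have hsub : AMY 1 X ⊆ (hfin.toFinset ∪ BY1 K X) ∪ BY2 K X := by
    intro x hx
    obtain ⟨h1, h2, -⟩ := (mem_AMY 1 X x).1 hx
    obtain ⟨h3, h4⟩ := (mem_FY x).2 h2
    rw [Finset.mem_union, Finset.mem_union]
    by_cases hsq : Squarefree x
    · left; left
      rw [Set.Finite.mem_toFinset]
      exact ⟨⟨hsq, h3.1, h4, h3.2⟩, h1⟩
    · have hx0 : x ≠ 0 := by
        rintro rfl
        exact h4 0 (by simp)
      have hex : ∃ p : Eis, Prime p ∧ p ^ 2 ∣ x := by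
        rw [squarefree_iff_no_irreducibles hx0] at hsq
        push Not at hsq
        obtain ⟨p, hp, hd⟩ := hsq
        exact ⟨p, hp.prime, by rw [sq]; exact hd⟩
      obtain ⟨p, hp, hd⟩ := hex
      have h6 := class_primeY x p h3 h4 hp hd
      by_cases hK : p.norm ≤ K
      · left; right
        exact Finset.mem_filter.2 ⟨hx, p, (mem_PB K p).2 ⟨hK, hp, h6⟩, hd⟩
      · right
        exact Finset.mem_filter.2 ⟨hx, hx0, p, hp, h6, not_le.1 hK, hd⟩
  refine (Finset.card_le_card hsub).trans ((Finset.card_union_le _ _).trans ?_)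
  have := Finset.card_union_le hfin.toFinset (BY1 K X)
  omega

theorem count_clY : ∃ X₀ : ℕ, ∀ X : ℕ, X₀ ≤ X → {D : Eis | ClY D ∧ D.norm ≤ X}.Finite ∧
    1122 * X ≤ 1000 * {D : Eis | ClY D ∧ D.norm ≤ X}.ncard := by
  obtain ⟨C₂, hC₂, hB2⟩ := BY2_card
  obtain ⟨k, hk⟩ : ∃ k : ℕ, C₂ * 20000 + 1 ≤ (k : ℝ) ^ 2 := by
    obtain ⟨k, hk⟩ := exists_nat_ge (C₂ * 20000 + 1)
    refine ⟨k, hk.trans ?_⟩
    have h1 : (1 : ℝ) ≤ k := by linarith [mul_pos hC₂ (by norm_num : (0 : ℝ) < 20000)]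
    nlinarith
  have hk1 : 1 ≤ k := by
    rcases Nat.eq_zero_or_pos k with h | h
    · rw [h] at hk
      norm_num at hk
      linarith
    · exact h
  set K : ℕ := 3 * k ^ 2 with hK
  obtain ⟨C₀, hC₀, hA⟩ := AMY_card 1 isCoprime_one_left
  choose! C₁ hC₁ hA1 using fun (p : Eis) (hp : p ∈ PB K) =>
    AMY_card (p ^ 2) (cop36 ((mem_PB K p).1 hp).2.2)
  set C₃ : ℝ := C₀ + ∑ p ∈ PB K, C₁ p with hC₃
  have hC₃0 : 0 ≤ C₃ := add_nonneg hC₀ (Finset.sum_nonneg fun p hp => hC₁ p hp)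
  refine ⟨⌈(C₃ * 40000 + 1) ^ 2⌉₊ + 1, fun X hX => ⟨(norm_fin X).subset fun x hx => hx.2, ?_⟩⟩
  have hX0 : (1 : ℝ) ≤ X := by
    have : 1 ≤ X := by omega
    exact_mod_cast this
  have hX1 : (C₃ * 40000 + 1) ^ 2 ≤ X := by
    have h1 : ⌈(C₃ * 40000 + 1) ^ 2⌉₊ ≤ X := by omega
    exact (Nat.le_ceil _).trans (by exact_mod_cast h1)
  have hsX : C₃ * 40000 + 1 ≤ √X := Real.le_sqrt_of_sq_le hX1
  have hsq : √X * √X = X := Real.mul_self_sqrt (by linarith)
  have herr : C₃ * (√X + 1) ≤ X / 20000 := by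
    have h1 : √X + 1 ≤ 2 * √X := by linarith [mul_nonneg hC₃0 (by norm_num : (0 : ℝ) ≤ 40000)]
    have h2 : C₃ * 40000 * √X ≤ X := by
      calc C₃ * 40000 * √X ≤ √X * √X := by
            apply mul_le_mul_of_nonneg_right _ (Real.sqrt_nonneg _)
            linarith
        _ = X := hsq
    calc C₃ * (√X + 1) ≤ C₃ * (2 * √X) := mul_le_mul_of_nonneg_left h1 hC₃0
      _ = C₃ * 40000 * √X / 20000 := by ring
      _ ≤ X / 20000 := by gcongr
  obtain ⟨hpi1, hpi2⟩ := two_pi_bounds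
  set P : ℝ := 2 * Real.pi / √3 with hP
  have hone : ((1 : Eis).norm : ℝ) = 1 := by
    have : (1 : Eis).norm = 1 := by decide
    rw [this]
    norm_num
  have h1 := (abs_le.1 (hA X)).1
  rw [hone, mul_one] at h1
  have h2 : (6 : ℝ) * (BY1 K X).card ≤ P * X / 3 * (429 / 1000) + (∑ p ∈ PB K, C₁ p) * (√X + 1) := by
    have h3 : (6 : ℝ) * (BY1 K X).card ≤ ∑ p ∈ PB K, ((AMY (p ^ 2) X).card : ℝ) := by
      exact_mod_cast BY1_card K X
    refine h3.trans ?_
    calc ∑ p ∈ PB K, ((AMY (p ^ 2) X).card : ℝ) ≤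
        ∑ p ∈ PB K, (P * X / 3 * (1 / (p.norm : ℝ) ^ 2) + C₁ p * (√X + 1)) := by
          refine Finset.sum_le_sum fun p hp => ?_
          have h4 := (abs_le.1 (hA1 p hp X)).2
          have e : P * X / (3 * ((p ^ 2).norm : ℝ)) = P * X / 3 * (1 / (p.norm : ℝ) ^ 2) := by
            rw [map_pow]
            push_cast
            ring
          rw [e] at h4
          linarith
      _ = P * X / 3 * ∑ p ∈ PB K, (1 / (p.norm : ℝ) ^ 2) + (∑ p ∈ PB K, C₁ p) * (√X + 1) := by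
        rw [Finset.sum_add_distrib, Finset.mul_sum, Finset.sum_mul]
      _ ≤ _ := by
        have h5 := sum_primes (PB K) fun p hp => ((mem_PB K p).1 hp).2
        have h6 : 0 ≤ P * X / 3 := by
          have : 0 ≤ P := by linarith
          positivity
        have := mul_le_mul_of_nonneg_left h5 h6
        linarith
  have h3 := hB2 k X hk1
  have h4 : C₂ * X / (k : ℝ) ^ 2 ≤ X / 20000 := by
    rw [div_le_div_iff₀ (by nlinarith [mul_pos hC₂ (by norm_num : (0 : ℝ) < 20000)]) (by norm_num)]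
    calc C₂ * X * 20000 = X * (C₂ * 20000) := by ring
      _ ≤ X * (k : ℝ) ^ 2 := by
        apply mul_le_mul_of_nonneg_left _ (by linarith)
        linarith
  have h5 : ((AMY 1 X).card : ℝ) ≤ ({D : Eis | ClY D ∧ D.norm ≤ X}.ncard : ℝ) + (BY1 K X).card +
      (BY2 K X).card := by exact_mod_cast sieveY K X
  have h6 : P * X / 3 ≥ 3.6275 * X / 3 := by
    gcongr
  have h7 : (1122 : ℝ) * X ≤ 1000 * ({D : Eis | ClY D ∧ D.norm ≤ X}.ncard : ℝ) := by
    have h8 : C₃ * (√X + 1) = C₀ * (√X + 1) + (∑ p ∈ PB K, C₁ p) * (√X + 1) := by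
      rw [hC₃]
      ring
    have h9 : 0 ≤ C₀ * (√X + 1) := mul_nonneg hC₀ (by positivity)
    have h10 : 0 ≤ (∑ p ∈ PB K, C₁ p) * (√X + 1) :=
      mul_nonneg (Finset.sum_nonneg fun p hp => hC₁ p hp) (by positivity)
    linarith
  exact_mod_cast h7

end JXC
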