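import Pool.Agent.JXC.S
import Pool.Agent.JXC.G

/-!
# [JXC] the two parts of the class together
-/

set_option autoImplicit false

namespace JXC

open CM27 CU JZ JC JX

theorem three_dvd_la2 : (3 : Eis) ∣ la ^ 2 := ⟨-om, by decide⟩

theorem three_dvd_of {x : Eis} (h : (la : Eis) ^ 3 ∣ x) : (3 : Eis) ∣ x :=
  (three_dvd_la2.trans ⟨la, by ring⟩).trans h

theorem not_three_two {η : Eis} (hη : η = 1 ∨ η = -1) : ¬ (3 : Eis) ∣ 2 * η := by
  rw [three_dvd_iff]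
  rcases hη with rfl | rfl
  · have e1 : (2 * 1 : Eis).re = 2 := rfl
    rw [e1]
    omega
  · have e1 : (2 * -1 : Eis).re = -2 := rfl
    rw [e1]
    omega

theorem condLa_la {D : Eis} (h : CondLa D) : ¬ la ∣ D := by
  obtain ⟨η, hη, ⟨k, hk⟩, -⟩ := h
  intro h5
  have h7 : (la : Eis) ∣ η := by
    have e : η = D - 3 * k := by rw [← hk]; ring
    rw [e]
    refine dvd_sub h5 ?_
    have e3 : (3 : Eis) = la * (-om ^ 2 * la) := by decide
    rw [e3, mul_assoc]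
    exact dvd_mul_right _ _
  apply la_prime.not_isUnit
  refine isUnit_of_dvd_unit h7 ?_
  rcases hη with rfl | rfl
  · exact isUnit_one
  · exact isUnit_one.neg

theorem clX_iff (D : Eis) : ClX D ↔ Cl D ∨ ClY D := by
  constructor
  · rintro ⟨h1, h2, h3, h4⟩
    by_cases h : ∃ η : Eis, (η = 1 ∨ η = -1) ∧ (3 : Eis) ∣ D - η
    · obtain ⟨η, hη, h5⟩ := h
      exact Or.inl ⟨h1, ⟨η, hη, h5, h4 η hη⟩, h3⟩
    · push Not at h
      exact Or.inr ⟨h1, h2, h3, h⟩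
  · rintro (⟨h1, h2, h3⟩ | ⟨h1, h2, h3, h4⟩)
    · refine ⟨h1, condLa_la h2, h3, ?_⟩
      obtain ⟨η, hη, h5, h6⟩ := h2
      intro η' hη' h7
      rcases eq_or_ne η' η with h | h
      · rw [h] at h7
        exact h6 h7
      · have h8 : η' = -η := by
          rcases hη with rfl | rfl <;> rcases hη' with rfl | rfl
          · exact absurd rfl h
          · rfl
          · exact (neg_neg _).symm
          · exact absurd rfl h
        refine not_three_two hη ?_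
        have h9 := three_dvd_of h7
        have h10 : 2 * η = (D - η' - la ^ 2) + la ^ 2 - (D - η) := by rw [h8]; ring
        rw [h10]
        exact dvd_sub (dvd_add h9 three_dvd_la2) h5
    · refine ⟨h1, h2, h3, fun η hη h7 => h4 η hη ?_⟩
      have h10 : D - η = (D - η - la ^ 2) + la ^ 2 := by ring
      rw [h10]
      exact dvd_add (three_dvd_of h7) three_dvd_la2

theorem not_both_cl {D : Eis} (h : Cl D) : ¬ ClY D := by
  rintro ⟨-, -, -, h4⟩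
  obtain ⟨-, ⟨η, hη, h5, -⟩, -⟩ := h
  exact h4 η hη h5

/-- the `D` without a form -/
def GX (D : Eis) : Prop := (Cl D ∧ ¬ HasForm D) ∨ (ClY D ∧ ¬ HasFormX D)

/-- `#{D : GX D, N D ≤ X} ≥ 0.3904 X`; compare `JC.count_all` : `#{D ≠ 0 : N D ≤ X} ≤ 3.628 X`. -/
theorem count_good : ∃ X₀ : ℕ, ∀ X : ℕ, X₀ ≤ X → {D : Eis | GX D ∧ D.norm ≤ X}.Finite ∧
    3904 * X ≤ 10000 * {D : Eis | GX D ∧ D.norm ≤ X}.ncard := by
  obtain ⟨X₁, h₁⟩ := count_bad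
  obtain ⟨X₂, h₂⟩ := count_cl
  obtain ⟨X₃, h₃⟩ := count_badX
  obtain ⟨X₄, h₄⟩ := count_clY
  refine ⟨X₁ + X₂ + X₃ + X₄, fun X hX => ?_⟩
  obtain ⟨f1, n1⟩ := h₁ X (by omega)
  obtain ⟨f2, n2⟩ := h₂ X (by omega)
  obtain ⟨f3, n3⟩ := h₃ X (by omega)
  obtain ⟨f4, n4⟩ := h₄ X (by omega)
  have hf : {D : Eis | GX D ∧ D.norm ≤ X}.Finite := (norm_fin X).subset fun x hx => hx.2
  refine ⟨hf, ?_⟩
  have hsub : {D : Eis | Cl D ∧ D.norm ≤ X} ∪ {D : Eis | ClY D ∧ D.norm ≤ X} ⊆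
      {D : Eis | GX D ∧ D.norm ≤ X} ∪ (SB X ∪ SBX X) := by
    rintro D (⟨h1, h2⟩ | ⟨h1, h2⟩)
    · by_cases h : HasForm D
      · exact Or.inr (Or.inl ⟨h1, h, h2⟩)
      · exact Or.inl ⟨Or.inl ⟨h1, h⟩, h2⟩
    · by_cases h : HasFormX D
      · exact Or.inr (Or.inr ⟨h1, h, h2⟩)
      · exact Or.inl ⟨Or.inr ⟨h1, h⟩, h2⟩
  have hdis : Disjoint {D : Eis | Cl D ∧ D.norm ≤ X} {D : Eis | ClY D ∧ D.norm ≤ X} :=
    Set.disjoint_left.2 fun D h1 h2 => not_both_cl h1.1 h2.1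
  have h5 := Set.ncard_union_eq hdis f2 f4
  have h6 := (Set.ncard_le_ncard hsub (hf.union (f1.union f3))).trans
    ((Set.ncard_union_le _ _).trans (Nat.add_le_add_left (Set.ncard_union_le _ _) _))
  omega

/-- `#{D : ClX D, N D ≤ X} ≥ 1.496 X` -/
theorem count_clX : ∃ X₀ : ℕ, ∀ X : ℕ, X₀ ≤ X → {D : Eis | ClX D ∧ D.norm ≤ X}.Finite ∧
    1496 * X ≤ 1000 * {D : Eis | ClX D ∧ D.norm ≤ X}.ncard := by
  obtain ⟨X₂, h₂⟩ := count_cl
  obtain ⟨X₄, h₄⟩ := count_clY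
  refine ⟨X₂ + X₄, fun X hX => ?_⟩
  obtain ⟨f2, n2⟩ := h₂ X (by omega)
  obtain ⟨f4, n4⟩ := h₄ X (by omega)
  have heq : {D : Eis | ClX D ∧ D.norm ≤ X} =
      {D : Eis | Cl D ∧ D.norm ≤ X} ∪ {D : Eis | ClY D ∧ D.norm ≤ X} := by
    ext D
    simp only [Set.mem_union, Set.mem_ofPred_eq, clX_iff]
    tauto
  have hdis : Disjoint {D : Eis | Cl D ∧ D.norm ≤ X} {D : Eis | ClY D ∧ D.norm ≤ X} :=
    Set.disjoint_left.2 fun D h1 h2 => not_both_cl h1.1 h2.1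
  rw [heq]
  refine ⟨f2.union f4, ?_⟩
  rw [Set.ncard_union_eq hdis f2 f4]
  omega

end JXC
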