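import Pool.Agent.JC.S
import Pool.Agent.JC.A
import Pool.Agent.JXC.L

/-!
# [JXC] the twelve forms and the number of `D` with a form (new part of the class)
-/

set_option autoImplicit false

namespace JXC

open CM27 CU JZ JC JX MeasureTheory
open scoped Pointwise

theorem condY_of {D : Eis} (h : ClY D) : CondY D := ⟨h.2.1, h.2.2.2⟩

/-- `λ² D` is not a square modulo `4` -/
theorem condTwo_la {D : Eis} (h : CondTwo D) : CondTwo (la ^ 2 * D) := by
  intro m hm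
  obtain ⟨k, hk⟩ := hm
  have h6 : (la : Eis) ^ 6 = -27 := by decide
  refine h (la ^ 5 * m) ⟨la ^ 10 * k - 182 * D, ?_⟩
  have h12 : (la : Eis) ^ 12 = 729 := by decide
  linear_combination la ^ 10 * hk - D * h12

theorem hasFormX_iff {D : Eis} (h : HasFormX D) : ∃ a b c d : Eis, EE a b c d = 4 * D ∧
    (∀ x y : Eis, val a (3 * b) (3 * c) d x y = 0 → x = 0 ∧ y = 0) ∧ LC a b c d D := by
  obtain ⟨a, b, c, d, h1, h2, h3⟩ := h
  exact ⟨a, b, c, d, h1, fun x y h => h2 x y h, fun x y m hxy h => h3 x y m hxy h⟩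

theorem exists_goodX (T : Set O4)
    (hT : ∀ a b c d D p q r s : Eis, ClY D → EE a b c d = 4 * D → LC a b c d D →
      IsUnit (p * s - q * r) →
      (cA a (3 * b) (3 * c) d p q r s, cB a (3 * b) (3 * c) d p q r s,
        cC a (3 * b) (3 * c) d p q r s, cD a (3 * b) (3 * c) d p q r s) ∈ T)
    {D : Eis} (hD : ClY D) (hF : HasFormX D) : ∃ g : O4, Good T (la ^ 2 * D) g := by
  have hdom := eis_isDomain
  obtain ⟨a, b, c, d, hE, hz, hLC⟩ := hasFormX_iff hF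
  have hD0 : D ≠ 0 := by
    rintro rfl
    exact hD.2.2.1 0 (by simp)
  have h27 : (la : Eis) ^ 6 = -27 := by decide
  have hdisc : disc a (3 * b) (3 * c) d = 4 * la ^ 4 * (la ^ 2 * D) := by
    rw [disc_three, hE]
    linear_combination (-4 * D) * h27
  have hd0 : disc a (3 * b) (3 * c) d ≠ 0 := by
    rw [hdisc]
    exact mul_ne_zero (mul_ne_zero (by decide) (pow_ne_zero 4 la_ne))
      (mul_ne_zero (pow_ne_zero 2 la_ne) hD0)
  obtain ⟨p, q, r, s, hdet, hA, hpar⟩ := red _ _ _ _ hd0 hz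
  set A' := cA a (3 * b) (3 * c) d p q r s with hA'
  set B' := cB a (3 * b) (3 * c) d p q r s with hB'
  set C' := cC a (3 * b) (3 * c) d p q r s with hC'
  set D' := cD a (3 * b) (3 * c) d p q r s with hD'
  have e1 : disc A' B' C' D' = 4 * la ^ 4 * (la ^ 2 * D) := by
    rw [hA', hB', hC', hD', disc_act, hdet, one_pow, one_mul, hdisc]
  have hz2 : ∀ x y : Eis, val A' B' C' D' x y = 0 → x = 0 ∧ y = 0 := fun x y h => by
    rw [hA', hB', hC', hD', val_act] at h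
    obtain ⟨h1, h2⟩ := hz _ _ h
    constructor
    · linear_combination s * h1 - q * h2 - x * hdet
    · linear_combination p * h2 - r * h1 - y * hdet
  refine ⟨(A', B', C', D'), e1, hA, fun hP => ?_, fun hQ => ?_, hpar, fun p' q' r' s' hu => ?_⟩
  · have hk := key_disc A' B' C' D'
    have hP' : kP A' B' C' = 0 := hP
    rw [hP', e1] at hk
    refine not_sq hD.2.2.1 (u := 2 * la ^ 6 * A') (v := kQ A' B' C' D')
      (mul_ne_zero (mul_ne_zero (by decide) (pow_ne_zero 6 la_ne)) hA) ?_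
    have h6 : (27 : Eis) = -la ^ 6 := by rw [la_six]; ring
    rw [h6] at hk
    linear_combination -hk
  · have hv := kQ_val A' B' C' D'
    have hQ' : kQ A' B' C' D' = 0 := hQ
    rw [hQ', mul_zero] at hv
    have := (hz2 _ _ hv).2
    exact mul_ne_zero (by decide) hA this
  · obtain ⟨f1, f2, f3, f4⟩ := act_act a (3 * b) (3 * c) d p q r s p' q' r' s'
    rw [f1, f2, f3, f4]
    refine hT a b c d D _ _ _ _ hD hE hLC ?_
    have : (p * p' + q * r') * (r * q' + s * s') - (p * q' + q * s') * (r * p' + s * r') =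
        p' * s' - q' * r' := by
      linear_combination (p' * s' - q' * r') * hdet
    rw [this]
    exact hu

/-- the number of `D` -/
def SBX (X : ℕ) : Set Eis := {D | ClY D ∧ HasFormX D ∧ D.norm ≤ X}

theorem SBX_fin (X : ℕ) : (SBX X).Finite := by
  refine (disc_fin 0 (√X)).subset fun D hD => ?_
  show ‖emb D - 0‖ ≤ √X
  rw [sub_zero]
  apply Real.le_sqrt_of_sq_le
  rw [norm_emb_sq]
  exact_mod_cast hD.2.2

/-- Twelve forms for every `D`. -/
theorem twelveX (T : Set O4)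
    (hT : ∀ a b c d D p q r s : Eis, ClY D → EE a b c d = 4 * D → LC a b c d D →
      IsUnit (p * s - q * r) →
      (cA a (3 * b) (3 * c) d p q r s, cB a (3 * b) (3 * c) d p q r s,
        cC a (3 * b) (3 * c) d p q r s, cD a (3 * b) (3 * c) d p q r s) ∈ T)
    (X : ℕ) (s : ℝ) (_hs : 0 ≤ s) (hX : s ^ 8 = 11664 * X)
    (hfin : {g : O4 | g ∈ T ∧ emb4 g ∈ Reg s}.Finite) :
    (SBX X).Finite ∧ 12 * (SBX X).ncard ≤ {g : O4 | g ∈ T ∧ emb4 g ∈ Reg s}.ncard := by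
  classical
  have hdom := eis_isDomain
  have hS := SBX_fin X
  refine ⟨hS, ?_⟩
  have hex : ∀ D : Eis, ∃ g : O4, D ∈ SBX X → Good T (la ^ 2 * D) g := fun D => by
    by_cases hD : D ∈ SBX X
    · obtain ⟨g, hg⟩ := exists_goodX T hT hD.1 hD.2.1
      exact ⟨g, fun _ => hg⟩
    · exact ⟨(0, 0, 0, 0), fun h => absurd h hD⟩
  choose g hg using hex
  have hbd : ∀ D ∈ SBX X, 36 * ‖emb (la ^ 2 * D)‖ ≤ s ^ 4 := fun D hD => by
    refine le_of_sq_le_sq ?_ (by positivity)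
    rw [mul_pow, norm_emb_sq, ← pow_mul, hX, map_mul, map_pow]
    have h3 : (la : Eis).norm = 3 := by decide
    rw [h3]
    have : ((D.norm : ℤ) : ℝ) ≤ X := by exact_mod_cast hD.2.2
    push_cast
    linarith
  have hex2 : ∀ (D : Eis) (u : Eis × Eis), ∃ n : Eis, D ∈ SBX X → u ∈ U12 →
      emb4 (tw (g D) u n) ∈ Reg s := fun D u => by
    by_cases hD : D ∈ SBX X
    · by_cases hu : u ∈ U12
      · obtain ⟨n, hn⟩ := tw_reg (hg D hD) (U12_prop u hu) (hbd D hD)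
        exact ⟨n, fun _ _ => hn⟩
      · exact ⟨0, fun _ h => absurd h hu⟩
    · exact ⟨0, fun h => absurd h hD⟩
  choose n hn using hex2
  have hcard : 12 * (SBX X).ncard = ((SBX X) ×ˢ (U12 : Set (Eis × Eis))).ncard := by
    rw [Set.ncard_prod, Set.ncard_coe_finset, U12_card, mul_comm]
  rw [hcard]
  refine Set.ncard_le_ncard_of_injOn (fun x => tw (g x.1) x.2 (n x.1 x.2)) ?_ ?_ hfin
  · rintro ⟨D, u⟩ ⟨hD, hu⟩
    exact ⟨tw_mem (hg D hD) (U12_prop u hu) _, hn D u hD hu⟩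
  · rintro ⟨D₁, u₁⟩ ⟨hD₁, hu₁⟩ ⟨D₂, u₂⟩ ⟨hD₂, hu₂⟩ h
    have hcan : la ^ 2 * D₁ = la ^ 2 * D₂ → D₁ = D₂ :=
      fun h => mul_left_cancel₀ (pow_ne_zero 2 la_ne) h
    obtain ⟨h1, h2⟩ := tw_inj (hg D₁ hD₁) (hg D₂ hD₂) (fun h => congrArg g (hcan h))
      (U12_prop u₁ hu₁) (U12_prop u₂ hu₂) h
    exact Prod.ext (hcan h1) h2

/-- the set of the forms with the local conditions -/
theorem exists_TX : ∃ (C9 : Finset (Z4 9)) (C4 : Finset (Z4 4)), C9.card ≤ 69984 ∧ C4.card ≤ 11520 ∧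
    ∀ a b c d D p q r s : Eis, ClY D → EE a b c d = 4 * D → LC a b c d D →
      IsUnit (p * s - q * r) →
      (cA a (3 * b) (3 * c) d p q r s, cB a (3 * b) (3 * c) d p q r s,
        cC a (3 * b) (3 * c) d p q r s, cD a (3 * b) (3 * c) d p q r s) ∈
        {g : O4 | res4 9 g ∈ C9 ∧ res4 4 g ∈ C4} := by
  obtain ⟨C9, h9, m9⟩ := c9x
  obtain ⟨C4, h4, m4⟩ := c4
  refine ⟨C9, C4, h9, h4, fun a b c d D p q r s hD hE hL hu =>
    ⟨m9 a b c d D p q r s (condY_of hD) hE hL hu, ?_⟩⟩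
  refine m4 _ _ _ _ (la ^ 2 * D) (condTwo_la hD.2.2.1) ?_
  have h27 : (la : Eis) ^ 6 = -27 := by decide
  rw [disc_act, unit_six hu, one_mul, disc_three, hE]
  linear_combination (-4 * D) * h27

theorem const_leX : 972 * ((69984 * 11520 : ℝ) * (√3 * Real.pi ^ 3 / 32 / (36 ^ 8 * (9 / 16)))) ≤
    0.82884 := by
  have h := const_le
  have e : 972 * ((69984 * 11520 : ℝ) * (√3 * Real.pi ^ 3 / 32 / (36 ^ 8 * (9 / 16)))) =
      3 * (108 * ((209952 * 11520 : ℝ) * (√3 * Real.pi ^ 3 / 32 / (36 ^ 8 * (9 / 16))))) := by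
    ring
  rw [e]
  linarith

theorem count_badX : ∃ X₀ : ℕ, ∀ X : ℕ, X₀ ≤ X → (SBX X).Finite ∧
    10000 * (SBX X).ncard ≤ 8292 * X := by
  obtain ⟨C9, C4, h9, h4, hT⟩ := exists_TX
  obtain ⟨K, hK, hcusp⟩ := cusp
  set N : ℕ := C9.card * C4.card with hN
  have hN0 : (N : ℝ) ≤ 69984 * 11520 := by
    have : N ≤ 69984 * 11520 := Nat.mul_le_mul h9 h4
    exact_mod_cast this
  obtain ⟨ε, hε, hε1, hεK⟩ : ∃ ε : ℝ, 0 < ε ∧ ε ≤ 1 ∧ K * √ε ≤ 1 / 10 ^ 8 := by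
    refine ⟨min 1 (1 / (10 ^ 8 * K)) ^ 2, by positivity, ?_, ?_⟩
    · exact pow_le_one₀ (by positivity) (min_le_left _ _)
    · rw [Real.sqrt_sq (by positivity)]
      calc K * min 1 (1 / (10 ^ 8 * K)) ≤ K * (1 / (10 ^ 8 * K)) :=
            mul_le_mul_of_nonneg_left (min_le_right _ _) hK.le
        _ = 1 / 10 ^ 8 := by field_simp
  obtain ⟨s₀, hlat⟩ := lat_union C9 C4 (RegC ε) (regC_compact ε hε) (1 / 10 ^ 18) (by norm_num)
  refine ⟨⌈|s₀| ^ 8⌉₊ + 1, fun X hX => ?_⟩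
  have hX1 : (1 : ℝ) ≤ X := by
    have : 1 ≤ X := by omega
    exact_mod_cast this
  have hXs : |s₀| ^ 8 ≤ X := by
    have h1 : ⌈|s₀| ^ 8⌉₊ ≤ X := by omega
    exact (Nat.le_ceil _).trans (by exact_mod_cast h1)
  set s : ℝ := (11664 * X : ℝ) ^ ((1 : ℝ) / 8) with hs
  have hs0 : 0 ≤ s := by positivity
  have hs8 : s ^ 8 = 11664 * X := by
    rw [hs, ← Real.rpow_natCast, ← Real.rpow_mul (by positivity)]
    norm_num
  have hs1 : 1 ≤ s := by
    by_contra hlt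
    have := pow_lt_one₀ hs0 (not_le.1 hlt) (n := 8) (by norm_num)
    rw [hs8] at this
    linarith
  have hss : s₀ ≤ s := by
    refine (le_abs_self _).trans ?_
    by_contra hlt
    have := pow_lt_pow_left₀ (not_le.1 hlt) hs0 (n := 8) (by norm_num)
    rw [hs8] at this
    linarith
  obtain ⟨f1, n1⟩ := hlat s hss
  obtain ⟨f2, n2⟩ := hcusp s ε hs1 hε hε1
  set T : Set O4 := {g : O4 | res4 9 g ∈ C9 ∧ res4 4 g ∈ C4} with hTdef
  have hsub : {g : O4 | g ∈ T ∧ emb4 g ∈ Reg s} ⊆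
      {g : O4 | (res4 9 g ∈ C9 ∧ res4 4 g ∈ C4) ∧ emb4 g ∈ s • RegC ε} ∪
        {g : O4 | emb4 g ∈ Reg s ∧ ‖emb g.1‖ ≤ ε * s} := by
    rintro g ⟨h1, h2⟩
    rcases le_total (ε * s) ‖emb g.1‖ with h | h
    · exact Or.inl ⟨h1, reg_scale (by linarith) h2 h⟩
    · exact Or.inr ⟨h2, h⟩
  have hfin : {g : O4 | g ∈ T ∧ emb4 g ∈ Reg s}.Finite := (f1.union f2).subset hsub
  obtain ⟨h1, h2⟩ := twelveX T hT X s hs0 hs8 hfin
  refine ⟨h1, ?_⟩
  have h3 : ({g : O4 | g ∈ T ∧ emb4 g ∈ Reg s}.ncard : ℝ) ≤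
      N * ((volume.real (RegC ε) / (36 ^ 8 * (9 / 16)) + 1 / 10 ^ 18) * s ^ 8) +
        K * √ε * s ^ 8 := by
    have h4 := (Set.ncard_le_ncard hsub (f1.union f2)).trans (Set.ncard_union_le _ _)
    calc ({g : O4 | g ∈ T ∧ emb4 g ∈ Reg s}.ncard : ℝ) ≤
        (({g : O4 | (res4 9 g ∈ C9 ∧ res4 4 g ∈ C4) ∧ emb4 g ∈ s • RegC ε}.ncard +
          {g : O4 | emb4 g ∈ Reg s ∧ ‖emb g.1‖ ≤ ε * s}.ncard : ℕ) : ℝ) := Nat.cast_le.2 h4
      _ ≤ _ := by
        push_cast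
        push_cast at n1 n2
        rw [hN]
        push_cast
        exact add_le_add n1 n2
  have hvol := regC_vol ε hε
  have h5 : (N : ℝ) * ((volume.real (RegC ε) / (36 ^ 8 * (9 / 16)) + 1 / 10 ^ 18) * s ^ 8) ≤
      69984 * 11520 * (((√3 * Real.pi ^ 3 / 32) / (36 ^ 8 * (9 / 16)) + 1 / 10 ^ 18) * s ^ 8) := by
    have hv0 : 0 ≤ volume.real (RegC ε) := measureReal_nonneg
    gcongr
  have h6 : K * √ε * s ^ 8 ≤ 1 / 10 ^ 8 * s ^ 8 := by gcongr
  have hc := const_leX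
  have h2' : 12 * ((SBX X).ncard : ℝ) ≤ ({g : O4 | g ∈ T ∧ emb4 g ∈ Reg s}.ncard : ℝ) := by
    exact_mod_cast h2
  have h7 : (10000 : ℝ) * ((SBX X).ncard : ℝ) ≤ 8292 * X := by
    rw [hs8] at h3 h5 h6
    have h8 : 12 * ((SBX X).ncard : ℝ) ≤
        (12 * 0.82884 + (69984 * 11520 / 10 ^ 18 + 1 / 10 ^ 8) * 11664) * X := by
      calc 12 * ((SBX X).ncard : ℝ) ≤ _ := h2'
        _ ≤ _ := h3
        _ ≤ _ := add_le_add h5 h6
        _ = 12 * (972 * ((69984 * 11520 : ℝ) * (√3 * Real.pi ^ 3 / 32 / (36 ^ 8 * (9 / 16))))) * X +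
            (69984 * 11520 / 10 ^ 18 + 1 / 10 ^ 8) * 11664 * X := by ring
        _ ≤ _ := by
          rw [add_mul]
          have hX0 : (0 : ℝ) ≤ X := by linarith
          have := mul_le_mul_of_nonneg_right (mul_le_mul_of_nonneg_left hc (by norm_num : (0 : ℝ) ≤ 12)) hX0
          linarith
    have h9 : (12 * 0.82884 + (69984 * 11520 / 10 ^ 18 + 1 / 10 ^ 8) * 11664 : ℝ) ≤ 12 * 0.8292 := by
      norm_num
    have h10 := h8.trans (mul_le_mul_of_nonneg_right h9 (by linarith : (0 : ℝ) ≤ X))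
    linarith
  exact_mod_cast h7

end JXC
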